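import Mathlib

/-!
# Mahler measures on larger circles
-/

set_option autoImplicit false

open Polynomial

namespace Pool.Agent.N772.SC

/-- pointwise lower bounds pass to Mahler measures -/
lemma mahler_mono {P Q : ℂ[X]} {c : ℝ} (hc : 0 < c) (hP : P ≠ 0) (hQ : Q ≠ 0)
    (hQ0 : ∀ z : ℂ, ‖z‖ = 1 → Q.eval z ≠ 0)
    (h : ∀ z : ℂ, ‖z‖ = 1 → c * ‖Q.eval z‖ ≤ ‖P.eval z‖) :
    c * Q.mahlerMeasure ≤ P.mahlerMeasure := by
  have hci : ∀ R : ℂ[X], CircleIntegrable (fun z => Real.log ‖R.eval z‖) 0 1 := by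
    intro R
    exact (analyticOnNhd_id.aeval_polynomial R).meromorphicOn.circleIntegrable_log_norm
  have h1 : c * Q.mahlerMeasure = (C (c : ℂ) * Q).mahlerMeasure := by
    rw [mahlerMeasure_mul, mahlerMeasure_const]
    simp [abs_of_pos hc]
  rw [h1]
  have hne : (C (c : ℂ) * Q) ≠ 0 :=
    mul_ne_zero (C_ne_zero.mpr (by exact_mod_cast hc.ne')) hQ
  rw [mahlerMeasure_def_of_ne_zero hne, mahlerMeasure_def_of_ne_zero hP]
  apply Real.exp_le_exp.2
  have h2 := Real.circleAverage_mono (hci (C (c : ℂ) * Q)) (hci P) (by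
    intro z hz
    have hz1 : ‖z‖ = 1 := by simpa using hz
    apply Real.log_le_log
    · rw [eval_mul, eval_C, norm_mul]
      exact mul_pos (by simpa using hc.ne') (norm_pos_iff.2 (hQ0 z hz1))
    · rw [eval_mul, eval_C, norm_mul]
      have h3 := h z hz1
      simpa [abs_of_pos hc] using h3)
  simpa [Real.circleAverage_def, smul_eq_mul] using h2

/-- the polynomial `P (x X)` -/
noncomputable def sc (x : ℝ) (P : ℂ[X]) : ℂ[X] := P.comp (C (x : ℂ) * X)

lemma eval_sc (x : ℝ) (P : ℂ[X]) (z : ℂ) : (sc x P).eval z = P.eval (x * z) := by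
  simp [sc, eval_comp]

lemma sc_ne_zero {x : ℝ} (hx : 0 < x) {P : ℂ[X]} (hP : P ≠ 0) : sc x P ≠ 0 := by
  intro h
  apply hP
  have h1 : natDegree (C (x : ℂ) * X) = 1 := natDegree_C_mul_X _ (by exact_mod_cast hx.ne')
  rcases (comp_eq_zero_iff).1 h with h2 | ⟨-, h2⟩
  · exact h2
  · exfalso
    rw [h2] at h1
    simp at h1

lemma mahler_sc {x : ℝ} (hx : 0 < x) (P : ℂ[X]) :
    (sc x P).mahlerMeasure = ‖P.leadingCoeff‖ * (P.roots.map fun a => max x ‖a‖).prod := by
  have hP := (IsAlgClosed.splits P).eq_prod_roots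
  have h1 : sc x P = C P.leadingCoeff * (P.roots.map fun a => (C (x : ℂ) * X + C (-a))).prod := by
    conv_lhs => rw [hP]
    unfold sc
    rw [mul_comp, C_comp, multiset_prod_comp, Multiset.map_map]
    congr 2
    apply Multiset.map_congr rfl
    intro a _
    simp [sub_eq_add_neg]
  rw [h1, mahlerMeasure_mul, mahlerMeasure_const]
  congr 1
  generalize P.roots = s
  induction s using Multiset.induction_on with
  | empty => simp
  | cons a s ih =>
    rw [Multiset.map_cons, Multiset.prod_cons, mahlerMeasure_mul, ih, Multiset.map_cons,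
      Multiset.prod_cons]
    congr 1
    rw [mahlerMeasure_C_mul_X_add_C (by exact_mod_cast hx.ne')]
    simp [abs_of_pos hx]

/-- upper bound on the larger circle -/
lemma sc_le {x : ℝ} (hx : 1 ≤ x) (P : ℂ[X]) :
    (sc x P).mahlerMeasure ≤ x ^ P.natDegree * P.mahlerMeasure := by
  rw [mahler_sc (by linarith), mahlerMeasure_eq_leadingCoeff_mul_prod_roots]
  have hcard : P.roots.card = P.natDegree := (splits_iff_card_roots.1 (IsAlgClosed.splits P))
  rw [← hcard]
  have key : ∀ s : Multiset ℂ, (s.map fun a => max x ‖a‖).prod ≤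
      x ^ s.card * (s.map fun a => max 1 ‖a‖).prod := by
    intro s
    induction s using Multiset.induction_on with
    | empty => simp
    | cons a s ih =>
      rw [Multiset.map_cons, Multiset.prod_cons, Multiset.map_cons, Multiset.prod_cons,
        Multiset.card_cons, pow_succ]
      have h1 : max x ‖a‖ ≤ x * max 1 ‖a‖ := by
        apply max_le
        · nlinarith [le_max_left 1 ‖a‖]
        · nlinarith [le_max_right 1 ‖a‖, norm_nonneg a, le_max_left 1 ‖a‖]
      have h2 : 0 ≤ (s.map fun a => max x ‖a‖).prod := by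
        apply Multiset.prod_nonneg
        intro y hy
        obtain ⟨b, -, rfl⟩ := Multiset.mem_map.1 hy
        exact le_max_of_le_right (norm_nonneg b)
      calc max x ‖a‖ * (s.map fun a => max x ‖a‖).prod
          ≤ (x * max 1 ‖a‖) * (x ^ s.card * (s.map fun a => max 1 ‖a‖).prod) :=
            mul_le_mul h1 ih h2 (mul_nonneg (by linarith) (le_max_of_le_left zero_le_one))
        _ = _ := by ring
  calc ‖P.leadingCoeff‖ * (P.roots.map fun a => max x ‖a‖).prod
      ≤ ‖P.leadingCoeff‖ * (x ^ P.roots.card * (P.roots.map fun a => max 1 ‖a‖).prod) :=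
        mul_le_mul_of_nonneg_left (key _) (norm_nonneg _)
    _ = _ := by ring

open Classical in
/-- the zeros outside the closed unit disc -/
noncomputable def out (P : ℂ[X]) : Multiset ℂ := P.roots.filter fun a => 1 < ‖a‖

/-- lower bound on the larger circle -/
lemma le_sc {x : ℝ} (hx : 1 ≤ x) (P : ℂ[X]) :
    x ^ P.natDegree * P.mahlerMeasure ≤ x ^ (out P).card * (sc x P).mahlerMeasure := by
  classical
  rw [mahler_sc (by linarith), mahlerMeasure_eq_leadingCoeff_mul_prod_roots]
  have hcard : P.roots.card = P.natDegree := (splits_iff_card_roots.1 (IsAlgClosed.splits P))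
  rw [← hcard]
  have key : ∀ s : Multiset ℂ, x ^ s.card * (s.map fun a => max 1 ‖a‖).prod ≤
      x ^ (s.filter fun a => 1 < ‖a‖).card * (s.map fun a => max x ‖a‖).prod := by
    intro s
    induction s using Multiset.induction_on with
    | empty => simp
    | cons a s ih =>
      rw [Multiset.map_cons, Multiset.prod_cons, Multiset.map_cons, Multiset.prod_cons,
        Multiset.card_cons, pow_succ]
      have h2 : 0 ≤ (s.map fun a => max 1 ‖a‖).prod := by
        apply Multiset.prod_nonneg
        intro y hy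
        obtain ⟨b, -, rfl⟩ := Multiset.mem_map.1 hy
        exact le_max_of_le_right (norm_nonneg b)
      have hx0 : (0:ℝ) ≤ x := by linarith
      by_cases ha : 1 < ‖a‖
      · rw [Multiset.filter_cons_of_pos (p := fun a : ℂ => 1 < ‖a‖) _ ha, Multiset.card_cons, pow_succ]
        have h1 : x * max 1 ‖a‖ ≤ x * max x ‖a‖ :=
          mul_le_mul_of_nonneg_left (max_le_max hx le_rfl) hx0
        calc x ^ s.card * x * (max 1 ‖a‖ * (s.map fun a => max 1 ‖a‖).prod)
            = (x * max 1 ‖a‖) * (x ^ s.card * (s.map fun a => max 1 ‖a‖).prod) := by ring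
          _ ≤ (x * max x ‖a‖) * (x ^ (s.filter fun a => 1 < ‖a‖).card *
              (s.map fun a => max x ‖a‖).prod) :=
              mul_le_mul h1 ih (by positivity)
                (mul_nonneg hx0 (le_max_of_le_left hx0))
          _ = _ := by ring
      · rw [Multiset.filter_cons_of_neg (p := fun a : ℂ => 1 < ‖a‖) _ ha]
        have ha' : ‖a‖ ≤ 1 := not_lt.1 ha
        have h1 : x * max 1 ‖a‖ ≤ max x ‖a‖ := by
          rw [max_eq_left ha', mul_one]
          exact le_max_left _ _
        calc x ^ s.card * x * (max 1 ‖a‖ * (s.map fun a => max 1 ‖a‖).prod)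
            = (x * max 1 ‖a‖) * (x ^ s.card * (s.map fun a => max 1 ‖a‖).prod) := by ring
          _ ≤ (max x ‖a‖) * (x ^ (s.filter fun a => 1 < ‖a‖).card *
              (s.map fun a => max x ‖a‖).prod) :=
              mul_le_mul h1 ih (by positivity) (le_max_of_le_left hx0)
          _ = _ := by ring
  calc x ^ P.roots.card * (‖P.leadingCoeff‖ * (P.roots.map fun a => max 1 ‖a‖).prod)
      = ‖P.leadingCoeff‖ * (x ^ P.roots.card * (P.roots.map fun a => max 1 ‖a‖).prod) := by ring
    _ ≤ ‖P.leadingCoeff‖ * (x ^ (P.roots.filter fun a => 1 < ‖a‖).card *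
        (P.roots.map fun a => max x ‖a‖).prod) :=
        mul_le_mul_of_nonneg_left (key _) (norm_nonneg _)
    _ = _ := by rw [out]; ring

/-- **Core estimate**: if `B` is small against `z ^ N A` on the circle of radius `x`, the Mahler
measure of `X ^ N A + B` is not much smaller than that of `A` -/
theorem core {A B : ℂ[X]} {N : ℕ} {x η : ℝ} (hx : 1 ≤ x) (hη : η < 1) (hA : A ≠ 0)
    (hA0 : ∀ z : ℂ, ‖z‖ = x → A.eval z ≠ 0)
    (hB : ∀ z : ℂ, ‖z‖ = x → ‖B.eval z‖ ≤ η * (x ^ N * ‖A.eval z‖))
    (hdeg : B.natDegree ≤ N + A.natDegree) :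
    (1 - η) * A.mahlerMeasure ≤ x ^ (out A).card * (X ^ N * A + B).mahlerMeasure := by
  have hx0 : (0:ℝ) < x := by linarith
  have hxz : ∀ z : ℂ, ‖z‖ = 1 → ‖(x : ℂ) * z‖ = x := by
    intro z hz
    rw [norm_mul, hz, mul_one, Complex.norm_real, Real.norm_of_nonneg hx0.le]
  have hlow : ∀ z : ℂ, ‖z‖ = x → (1 - η) * (x ^ N * ‖A.eval z‖) ≤
      ‖(X ^ N * A + B).eval z‖ := by
    intro z hz
    have h1 : ‖(X ^ N * A).eval z‖ = x ^ N * ‖A.eval z‖ := by
      rw [eval_mul, eval_pow, eval_X, norm_mul, norm_pow, hz]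
    have h2 : ‖(X ^ N * A).eval z‖ ≤ ‖(X ^ N * A + B).eval z‖ + ‖B.eval z‖ := by
      rw [eval_add]
      exact norm_le_add_norm_add _ _
    have h3 := hB z hz
    rw [h1] at h2
    linarith
  have hpos : ∀ z : ℂ, ‖z‖ = x → 0 < x ^ N * ‖A.eval z‖ := by
    intro z hz
    exact mul_pos (by positivity) (norm_pos_iff.2 (hA0 z hz))
  have hf : X ^ N * A + B ≠ 0 := by
    intro h
    have hz : ‖(x : ℂ)‖ = x := by rw [Complex.norm_real, Real.norm_of_nonneg hx0.le]
    have h1 := hlow x hz
    rw [h, eval_zero, norm_zero] at h1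
    have h2 := hpos x hz
    have h3 : 0 < (1 - η) * (x ^ N * ‖A.eval (x : ℂ)‖) := mul_pos (by linarith) h2
    linarith
  have hXA : X ^ N * A ≠ 0 := mul_ne_zero (pow_ne_zero _ X_ne_zero) hA
  have h1 : (1 - η) * (sc x (X ^ N * A)).mahlerMeasure ≤
      (sc x (X ^ N * A + B)).mahlerMeasure := by
    apply mahler_mono (by linarith) (sc_ne_zero hx0 hf) (sc_ne_zero hx0 hXA)
    · intro z hz
      rw [eval_sc, eval_mul, eval_pow, eval_X]
      refine mul_ne_zero (pow_ne_zero _ ?_) (hA0 _ (hxz z hz))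
      rw [← norm_ne_zero_iff, hxz z hz]
      exact hx0.ne'
    · intro z hz
      rw [eval_sc, eval_sc]
      have h2 := hlow _ (hxz z hz)
      rw [eval_mul, eval_pow, eval_X, norm_mul, norm_pow, hxz z hz]
      exact h2
  have h2 := sc_le hx (X ^ N * A + B)
  have h3 := le_sc hx A
  have hdegf : (X ^ N * A + B).natDegree ≤ N + A.natDegree := by
    apply (natDegree_add_le _ _).trans
    apply max_le _ hdeg
    rw [natDegree_mul (pow_ne_zero _ X_ne_zero) hA, natDegree_X_pow]
  have h4 : (sc x (X ^ N * A)).mahlerMeasure = x ^ N * (sc x A).mahlerMeasure := by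
    have : sc x (X ^ N * A) = C ((x : ℂ) ^ N) * X ^ N * sc x A := by
      unfold sc
      rw [mul_comp, pow_comp, X_comp, mul_pow, ← C_pow]
    have hX : ∀ m : ℕ, (X ^ m : ℂ[X]).mahlerMeasure = 1 := by
      intro m
      induction m with
      | zero => simp
      | succ m ih =>
        rw [pow_succ, mahlerMeasure_mul, ih, one_mul]
        simpa using mahlerMeasure_X_add_C 0
    rw [this, mahlerMeasure_mul, mahlerMeasure_mul, mahlerMeasure_const, hX]
    simp [abs_of_pos hx0]
  rw [h4] at h1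
  have hMf : 0 ≤ (X ^ N * A + B).mahlerMeasure := mahlerMeasure_nonneg _
  have h5 : x ^ (X ^ N * A + B).natDegree * (X ^ N * A + B).mahlerMeasure ≤
      x ^ (N + A.natDegree) * (X ^ N * A + B).mahlerMeasure :=
    mul_le_mul_of_nonneg_right (pow_le_pow_right₀ hx hdegf) hMf
  have h6 : (1 - η) * (x ^ (N + A.natDegree) * A.mahlerMeasure) ≤
      x ^ (N + A.natDegree) * (x ^ (out A).card * (X ^ N * A + B).mahlerMeasure) := by
    calc (1 - η) * (x ^ (N + A.natDegree) * A.mahlerMeasure)
        = (1 - η) * x ^ N * (x ^ A.natDegree * A.mahlerMeasure) := by rw [pow_add]; ring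
      _ ≤ (1 - η) * x ^ N * (x ^ (out A).card * (sc x A).mahlerMeasure) :=
          mul_le_mul_of_nonneg_left h3 (mul_nonneg (by linarith) (by positivity))
      _ = x ^ (out A).card * ((1 - η) * (x ^ N * (sc x A).mahlerMeasure)) := by ring
      _ ≤ x ^ (out A).card * (x ^ (N + A.natDegree) * (X ^ N * A + B).mahlerMeasure) :=
          mul_le_mul_of_nonneg_left (h1.trans (h2.trans h5)) (by positivity)
      _ = _ := by ring
  have h7 : 0 < x ^ (N + A.natDegree) := by positivity
  have h8 : x ^ (N + A.natDegree) * ((1 - η) * A.mahlerMeasure) ≤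
      x ^ (N + A.natDegree) * (x ^ (out A).card * (X ^ N * A + B).mahlerMeasure) := by
    linarith
  exact le_of_mul_le_mul_left h8 h7

end Pool.Agent.N772.SC
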