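import Mathlib

/-!
# The averaging lemma
-/

set_option autoImplicit false

open MeasureTheory

namespace Pool.Agent.N772.SC

lemma neg_mul_log_le {t : ℝ} (ht : 0 < t) : -(t * Real.log t) ≤ 92 / 250 := by
  have h1 := Real.one_sub_inv_le_log_of_pos (mul_pos (Real.exp_pos 1) ht)
  rw [Real.log_mul (Real.exp_pos 1).ne' ht.ne', Real.log_exp, mul_inv] at h1
  have h2 : (Real.exp 1)⁻¹ ≤ 92 / 250 := by
    rw [inv_le_comm₀ (Real.exp_pos 1) (by norm_num)]
    have := Real.exp_one_gt_d9
    norm_num
    linarith
  have h3 : -(t * Real.log t) ≤ t * ((Real.exp 1)⁻¹ * t⁻¹) := by nlinarith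
  have h4 : t * ((Real.exp 1)⁻¹ * t⁻¹) = (Real.exp 1)⁻¹ := by field_simp
  linarith

lemma one_sub_le {t : ℝ} (ht : 0 < t) : -(t * Real.log t) ≤ 1 - t := by
  have h1 := Real.one_sub_inv_le_log_of_pos ht
  have h2 : t * (1 - t⁻¹) = t - 1 := by field_simp
  nlinarith

/-- the normalised bound -/
lemma gbound {t : ℝ} (ht : 0 < t) :
    (1 + t) * Real.log (1 + t) - (1 - t) * Real.log (1 - t) - 2 * (t * Real.log t) ≤ 12 / 5 := by
  have hlog1 : Real.log (1 + t) ≤ t := by
    have := Real.log_le_sub_one_of_pos (show (0:ℝ) < 1 + t by linarith)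
    linarith
  rcases lt_trichotomy t 1 with h | h | h
  · have h1 : (1 + t) * Real.log (1 + t) ≤ t + t ^ 2 := by nlinarith
    have h2 := one_sub_le (show (0:ℝ) < 1 - t by linarith)
    have h3 := neg_mul_log_le (show (0:ℝ) < 1 - t by linarith)
    have h4 := one_sub_le ht
    have h5 := neg_mul_log_le ht
    rcases le_or_gt t (632 / 1000) with h6 | h6
    · nlinarith
    · nlinarith
  · subst h
    have h3 := Real.log_two_lt_d9
    norm_num
    linarith
  · have h1 : Real.log (1 + t) - Real.log t ≤ 1 / t := by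
      rw [← Real.log_div (by linarith) ht.ne']
      have := Real.log_le_sub_one_of_pos (show (0:ℝ) < (1 + t) / t by positivity)
      have h2 : (1 + t) / t - 1 = 1 / t := by field_simp; ring
      linarith
    have h2 : Real.log (t - 1) - Real.log t ≤ -(1 / t) := by
      rw [← Real.log_div (by linarith) ht.ne']
      have := Real.log_le_sub_one_of_pos (show (0:ℝ) < (t - 1) / t from
        div_pos (by linarith) ht)
      have h2 : (t - 1) / t - 1 = -(1 / t) := by field_simp; ring
      linarith
    have h3 : Real.log (1 - t) = Real.log (t - 1) := by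
      rw [← Real.log_neg_eq_log, neg_sub]
    rw [h3]
    have h4 : (1 + t) * Real.log (1 + t) - (1 - t) * Real.log (t - 1) - 2 * (t * Real.log t) =
        (1 + t) * (Real.log (1 + t) - Real.log t) + (t - 1) * (Real.log (t - 1) - Real.log t) := by
      ring
    rw [h4]
    have h5 : (1 + t) * (Real.log (1 + t) - Real.log t) ≤ (1 + t) * (1 / t) :=
      mul_le_mul_of_nonneg_left h1 (by linarith)
    have h6 : (t - 1) * (Real.log (t - 1) - Real.log t) ≤ (t - 1) * (-(1 / t)) :=
      mul_le_mul_of_nonneg_left h2 (by linarith)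
    have h7 : (1 + t) * (1 / t) + (t - 1) * (-(1 / t)) = 2 / t := by field_simp; ring
    have h8 : 2 / t ≤ 2 := by
      rw [div_le_iff₀ ht]
      linarith
    linarith

lemma ii1 (U v : ℝ) : IntervalIntegrable (fun u => Real.log (u + v)) volume 0 U := by
  have h : IntervalIntegrable (fun x => Real.log x) volume v (U + v) :=
    intervalIntegral.intervalIntegrable_log'
  have h2 := h.comp_add_right v
  simpa using h2

lemma ii2 (U v : ℝ) : IntervalIntegrable (fun u => Real.log (u - v)) volume 0 U := by
  have h : IntervalIntegrable (fun x => Real.log x) volume (-v) (U - v) :=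
    intervalIntegral.intervalIntegrable_log'
  have h2 := h.comp_sub_right v
  simpa using h2

lemma int_bound {U v : ℝ} (hU : 0 < U) (hv : 0 < v) :
    ∫ u in (0:ℝ)..U, (Real.log (u + v) - Real.log (u - v)) ≤ 12 / 5 * U := by
  rw [intervalIntegral.integral_sub (ii1 U v) (ii2 U v),
    intervalIntegral.integral_comp_add_right (fun x => Real.log x) v,
    intervalIntegral.integral_comp_sub_right (fun x => Real.log x) v, integral_log, integral_log]
  obtain ⟨t, ht⟩ : ∃ t, t = v / U := ⟨_, rfl⟩
  have hv' : v = t * U := by rw [ht]; field_simp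
  have ht0 : 0 < t := by rw [ht]; positivity
  have e1 : Real.log (U + v) = Real.log U + Real.log (1 + t) := by
    rw [hv', show U + t * U = U * (1 + t) by ring, Real.log_mul hU.ne' (by linarith)]
  have e2 : Real.log v = Real.log t + Real.log U := by
    rw [hv', Real.log_mul ht0.ne' hU.ne']
  have e3 : (U - v) * Real.log (U - v) = (U - v) * (Real.log U + Real.log (1 - t)) := by
    rcases eq_or_ne (1 - t) 0 with h | h
    · have h2 : U - v = 0 := by rw [hv']; linear_combination U * h
      rw [h2, zero_mul, zero_mul]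
    · rw [hv', show U - t * U = U * (1 - t) by ring, Real.log_mul hU.ne' h]
  have e4 : Real.log (0 - v) = Real.log v := by rw [zero_sub, Real.log_neg_eq_log]
  rw [e4, e3, zero_add, e1, e2]
  have h := mul_le_mul_of_nonneg_left (gbound ht0) hU.le
  have e5 : (U + v) * (Real.log U + Real.log (1 + t)) - v * (Real.log t + Real.log U) - (U + v) + v -
      ((U - v) * (Real.log U + Real.log (1 - t)) - (0 - v) * (Real.log t + Real.log U) -
        (U - v) + (0 - v)) = U * ((1 + t) * Real.log (1 + t) - (1 - t) * Real.log (1 - t) -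
        2 * (t * Real.log t)) := by
    rw [hv']
    ring
  rw [e5]
  linarith

lemma ii_sum (s : Multiset ℝ) (U : ℝ) : IntervalIntegrable
    (fun u => (s.map fun v => Real.log (u + v) - Real.log (u - v)).sum) volume 0 U := by
  induction s using Multiset.induction_on with
  | empty => simp
  | cons v s ih =>
    have h : (fun u => ((v ::ₘ s).map fun v => Real.log (u + v) - Real.log (u - v)).sum) =
        fun u => (Real.log (u + v) - Real.log (u - v)) +
          (s.map fun v => Real.log (u + v) - Real.log (u - v)).sum := by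
      ext u
      rw [Multiset.map_cons, Multiset.sum_cons]
    rw [h]
    exact ((ii1 U v).sub (ii2 U v)).add ih

lemma int_sum_bound (s : Multiset ℝ) (hs : ∀ v ∈ s, 0 < v) {U : ℝ} (hU : 0 < U) :
    ∫ u in (0:ℝ)..U, (s.map fun v => Real.log (u + v) - Real.log (u - v)).sum ≤
      12 / 5 * s.card * U := by
  induction s using Multiset.induction_on with
  | empty => simp
  | cons v s ih =>
    simp only [Multiset.map_cons, Multiset.sum_cons, Multiset.card_cons]
    rw [intervalIntegral.integral_add ((ii1 U v).sub (ii2 U v)) (ii_sum s U)]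
    have h1 := int_bound hU (hs v (Multiset.mem_cons_self v s))
    have h2 := ih (fun w hw => hs w (Multiset.mem_cons_of_mem hw))
    push_cast
    linarith

/-- the choice of the radius -/
theorem exists_radius (s : Multiset ℝ) (hs : ∀ v ∈ s, 0 < v) (g : ℝ) {U : ℝ} (hU : 0 < U) :
    ∃ u, 0 < u ∧ u ≤ U ∧ (∀ v ∈ s, u ≠ v) ∧
      g * U - 12 / 5 * s.card ≤
        2 * g * u - (s.map fun v => Real.log (u + v) - Real.log (u - v)).sum := by
  classical
  obtain ⟨Φ, hΦ⟩ : ∃ Φ : ℝ → ℝ, Φ = fun u => 2 * g * u -
    (s.map fun v => Real.log (u + v) - Real.log (u - v)).sum := ⟨_, rfl⟩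
  have hii0 : IntervalIntegrable (fun u => 2 * g * u) volume 0 U :=
    (continuous_const.mul continuous_id).intervalIntegrable _ _
  have hii : IntervalIntegrable Φ volume 0 U := by
    rw [hΦ]
    exact hii0.sub (ii_sum s U)
  have hint : g * U ^ 2 - 12 / 5 * s.card * U ≤ ∫ u in (0:ℝ)..U, Φ u := by
    rw [hΦ, intervalIntegral.integral_sub hii0 (ii_sum s U), intervalIntegral.integral_const_mul,
      integral_id]
    have := int_sum_bound s hs hU
    nlinarith
  have hμ : (volume.restrict (Set.Ioc (0:ℝ) U)) ≠ 0 := by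
    rw [Ne, Measure.restrict_eq_zero, Real.volume_Ioc]
    simp [hU]
  have : IsFiniteMeasure (volume.restrict (Set.Ioc (0:ℝ) U)) := by
    constructor
    rw [Measure.restrict_apply_univ, Real.volume_Ioc]
    exact ENNReal.ofReal_lt_top
  have hnull : (volume.restrict (Set.Ioc (0:ℝ) U)) ((Set.Ioc (0:ℝ) U)ᶜ ∪ (s.toFinset : Set ℝ)) = 0 := by
    apply measure_union_null
    · rw [Measure.restrict_apply (measurableSet_Ioc.compl)]
      simp
    · exact (Finset.finite_toSet _).measure_zero _
  obtain ⟨u, hu, hle⟩ := exists_notMem_null_average_le hμ (hii.1) hnull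
  rw [Set.mem_union, not_or] at hu
  obtain ⟨hu1, hu2⟩ := hu
  rw [Set.notMem_compl_iff] at hu1
  refine ⟨u, hu1.1, hu1.2, ?_, ?_⟩
  · intro v hv h
    apply hu2
    rw [h]
    simpa using hv
  · have h1 : ⨍ a in Set.Ioc (0:ℝ) U, Φ a = U⁻¹ * ∫ u in (0:ℝ)..U, Φ u := by
      rw [setAverage_eq, intervalIntegral.integral_of_le hU.le, smul_eq_mul]
      congr 2
      rw [Measure.real, Real.volume_Ioc, sub_zero, ENNReal.toReal_ofReal hU.le]
    rw [h1] at hle
    have h2 : U⁻¹ * (g * U ^ 2 - 12 / 5 * s.card * U) ≤ U⁻¹ * ∫ u in (0:ℝ)..U, Φ u :=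
      mul_le_mul_of_nonneg_left hint (by positivity)
    have h3 : U⁻¹ * (g * U ^ 2 - 12 / 5 * s.card * U) = g * U - 12 / 5 * s.card := by
      field_simp
    rw [h3] at h2
    have h4 : Φ u = 2 * g * u - (s.map fun v => Real.log (u + v) - Real.log (u - v)).sum := by
      rw [hΦ]
    rw [← h4]
    linarith

end Pool.Agent.N772.SC
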