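import Pool.Agent.N772.SC.Ext2
import Pool.Agent.N772.SC.Avg
import Pool.Agent.H338R2.Smyth2

/-!
# Mahler measures of `X ^ N A + B`
-/

set_option autoImplicit false

open Polynomial

namespace Pool.Agent.N772.SC

lemma log_ge {u : ℝ} (h0 : 0 < u) (h1 : u < 1) : 2 * u ≤ Real.log ((1 + u) / (1 - u)) := by
  rw [Real.log_div (by linarith) (by linarith)]
  have h := Real.hasSum_log_sub_log_of_abs_lt_one (x := u) (by rw [abs_of_pos h0]; exact h1)
  have h3 := le_hasSum h 0 (fun j _ => by positivity)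
  simpa using h3

lemma log_le {u U : ℝ} (h0 : 0 < u) (h1 : u ≤ U) (hU : U < 1) :
    Real.log ((1 + u) / (1 - u)) ≤ 2 * U / (1 - U) := by
  have h2 := Real.log_le_sub_one_of_pos (show (0:ℝ) < (1 + u) / (1 - u) from
    div_pos (by linarith) (by linarith))
  have h3 : (1 + u) / (1 - u) - 1 = 2 * u / (1 - u) := by
    have : (1 - u) ≠ 0 := by linarith
    field_simp
    ring
  rw [h3] at h2
  refine h2.trans ?_
  rw [div_le_div_iff₀ (by linarith) (by linarith)]
  nlinarith

/-- the value of one ratio in the good coordinate -/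
lemma ratio_eq {u a : ℝ} (h0 : 0 < u) (h1 : u < 1) (ha : 1 < a) (hne : u ≠ (a - 1) / (a + 1)) :
    (1 + u) / (1 - u) ≠ a ∧
    Real.log (((1 + u) / (1 - u) * a - 1) / |(1 + u) / (1 - u) - a|) =
      Real.log (u + (a - 1) / (a + 1)) - Real.log (u - (a - 1) / (a + 1)) ∧
    0 < ((1 + u) / (1 - u) * a - 1) / |(1 + u) / (1 - u) - a| := by
  have h2 : (0:ℝ) < 1 - u := by linarith
  have h3 : (0:ℝ) < a + 1 := by linarith
  have e1 : (1 + u) / (1 - u) * a - 1 = (a + 1) / (1 - u) * (u + (a - 1) / (a + 1)) := by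
    field_simp
    ring
  have e2 : (1 + u) / (1 - u) - a = (a + 1) / (1 - u) * (u - (a - 1) / (a + 1)) := by
    field_simp
    ring
  have h4 : u - (a - 1) / (a + 1) ≠ 0 := sub_ne_zero.2 hne
  have h5 : 0 < (a + 1) / (1 - u) := by positivity
  have h6 : 0 < u + (a - 1) / (a + 1) := by
    have : 0 < (a - 1) / (a + 1) := div_pos (by linarith) h3
    linarith
  have h7 : (1 + u) / (1 - u) - a ≠ 0 := by
    rw [e2]
    exact mul_ne_zero h5.ne' h4
  refine ⟨sub_ne_zero.1 h7, ?_, ?_⟩
  · rw [Real.log_div _ (abs_ne_zero.2 h7), Real.log_abs, e1, e2, Real.log_mul h5.ne' h6.ne',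
      Real.log_mul h5.ne' h4]
    · ring
    · rw [e1]
      exact (mul_pos h5 h6).ne'
  · apply div_pos
    · rw [e1]
      exact mul_pos h5 h6
    · exact abs_pos.2 h7

/-- **Main estimate** over the complex numbers -/
theorem main_complex {A B : ℂ[X]} (hA : A ≠ 0) {N g : ℕ} {H : ℝ} (hH : 1 ≤ H) (hg1 : 1 ≤ g)
    (hdeg : B.natDegree + g ≤ N + A.natDegree)
    (hB : ∀ z : ℂ, ‖z‖ = 1 → ‖B.eval z‖ ≤ H * ‖A.eval z‖)
    (hg : 250 * ((out A).card : ℝ) * ((out A).card + Real.log H) ≤ g) :
    93 / 100 * A.mahlerMeasure ≤ (X ^ N * A + B).mahlerMeasure := by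
  classical
  have hMA : 0 ≤ A.mahlerMeasure := mahlerMeasure_nonneg A
  obtain ⟨k, hk⟩ : ∃ k, k = (out A).card := ⟨_, rfl⟩
  rw [← hk] at hg
  have hlH : 0 ≤ Real.log H := Real.log_nonneg hH
  rcases Nat.eq_zero_or_pos k with hk0 | hk0
  · -- no zero outside the disc: the leading coefficient decides
    have hout : out A = 0 := by
      rw [← Multiset.card_eq_zero, ← hk, hk0]
    have h1 : A.mahlerMeasure = ‖A.leadingCoeff‖ := by
      rw [mahlerMeasure_eq_leadingCoeff_mul_prod_roots]
      have h2 : (A.roots.map fun a => max 1 ‖a‖).prod = 1 := by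
        apply Multiset.prod_eq_one
        intro y hy
        obtain ⟨a, ha, rfl⟩ := Multiset.mem_map.1 hy
        apply max_eq_left
        by_contra hcon
        have : a ∈ out A := Multiset.mem_filter.2 ⟨ha, not_le.1 hcon⟩
        rw [hout] at this
        exact Multiset.notMem_zero a this
      rw [h2, mul_one]
    have h3 : (X ^ N * A + B).leadingCoeff = A.leadingCoeff := by
      have h4 : (X ^ N * A).natDegree = N + A.natDegree := by
        rw [natDegree_mul (pow_ne_zero _ X_ne_zero) hA, natDegree_X_pow]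
      rw [leadingCoeff_add_of_degree_lt' (by
        apply degree_lt_degree
        rw [h4]
        omega), leadingCoeff_mul, leadingCoeff_X_pow, one_mul]
    have h4 := leadingCoeff_le_mahlerMeasure (X ^ N * A + B)
    rw [h3, ← h1] at h4
    linarith
  · have hk1 : (1:ℝ) ≤ k := by exact_mod_cast hk0
    have hkH : 0 < (k:ℝ) + Real.log H := by linarith
    have hg0 : (0:ℝ) < g := by exact_mod_cast hg1
    obtain ⟨U, hU⟩ : ∃ U : ℝ, U = (5 + Real.log H + 12 / 5 * k) / g := ⟨_, rfl⟩
    have hU0 : 0 < U := by rw [hU]; positivity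
    have hgU : g * U = 5 + Real.log H + 12 / 5 * k := by rw [hU]; field_simp
    have hUle : U ≤ 37 / 5 / (250 * k) := by
      rw [hU, div_le_div_iff₀ hg0 (by positivity)]
      have h1 : 5 + Real.log H + 12 / 5 * k ≤ 37 / 5 * (k + Real.log H) := by nlinarith
      calc (5 + Real.log H + 12 / 5 * k) * (250 * k)
          ≤ 37 / 5 * (k + Real.log H) * (250 * k) :=
            mul_le_mul_of_nonneg_right h1 (by positivity)
        _ = 37 / 5 * (250 * k * (k + Real.log H)) := by ring
        _ ≤ 37 / 5 * g := mul_le_mul_of_nonneg_left hg (by norm_num)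
    have hkU : k * U ≤ 37 / 1250 := by
      calc k * U ≤ k * (37 / 5 / (250 * k)) := mul_le_mul_of_nonneg_left hUle (by positivity)
        _ = 37 / 1250 := by field_simp; norm_num
    have hU1 : U ≤ 37 / 1250 := by nlinarith
    obtain ⟨u, hu0, huU, hus, hu⟩ := exists_radius
      ((out A).map fun a => (‖a‖ - 1) / (‖a‖ + 1)) (by
        intro v hv
        obtain ⟨a, ha, rfl⟩ := Multiset.mem_map.1 hv
        have : 1 < ‖a‖ := (Multiset.mem_filter.1 ha).2
        exact div_pos (by linarith) (by linarith)) g hU0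
    have hu1 : u < 1 := by linarith
    rw [Multiset.card_map, ← hk, hgU] at hu
    obtain ⟨x, hx⟩ : ∃ x : ℝ, x = (1 + u) / (1 - u) := ⟨_, rfl⟩
    have hx1 : 1 < x := by
      rw [hx, lt_div_iff₀ (by linarith)]
      linarith
    have hx0 : 0 < x := by linarith
    have hlx : 2 * u ≤ Real.log x := by rw [hx]; exact log_ge hu0 hu1
    have hlx2 : Real.log x ≤ 2 * U / (1 - U) := by rw [hx]; exact log_le hu0 huU (by linarith)
    have hr : ∀ a ∈ out A, x ≠ ‖a‖ ∧
        Real.log ((x * ‖a‖ - 1) / |x - ‖a‖|) =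
          Real.log (u + (‖a‖ - 1) / (‖a‖ + 1)) - Real.log (u - (‖a‖ - 1) / (‖a‖ + 1)) ∧
        0 < (x * ‖a‖ - 1) / |x - ‖a‖| := by
      intro a ha
      have h1 : 1 < ‖a‖ := (Multiset.mem_filter.1 ha).2
      rw [hx]
      exact ratio_eq hu0 hu1 h1 (hus _ (Multiset.mem_map_of_mem _ ha))
    obtain ⟨ρ, hρ⟩ : ∃ ρ : ℝ, ρ = ((out A).map fun a => (x * ‖a‖ - 1) / |x - ‖a‖|).prod := ⟨_, rfl⟩
    have hρpos : 0 < ρ ∧ Real.log ρ = ((out A).map fun a =>
        Real.log (u + (‖a‖ - 1) / (‖a‖ + 1)) - Real.log (u - (‖a‖ - 1) / (‖a‖ + 1))).sum := by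
      rw [hρ]
      have key : ∀ t : Multiset ℂ, (∀ a ∈ t, x ≠ ‖a‖ ∧
        Real.log ((x * ‖a‖ - 1) / |x - ‖a‖|) =
          Real.log (u + (‖a‖ - 1) / (‖a‖ + 1)) - Real.log (u - (‖a‖ - 1) / (‖a‖ + 1)) ∧
        0 < (x * ‖a‖ - 1) / |x - ‖a‖|) →
        0 < (t.map fun a => (x * ‖a‖ - 1) / |x - ‖a‖|).prod ∧
        Real.log (t.map fun a => (x * ‖a‖ - 1) / |x - ‖a‖|).prod = (t.map fun a =>
          Real.log (u + (‖a‖ - 1) / (‖a‖ + 1)) - Real.log (u - (‖a‖ - 1) / (‖a‖ + 1))).sum := by
        intro t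
        induction t using Multiset.induction_on with
        | empty => simp
        | cons a t ih =>
          intro ht
          obtain ⟨h1, h2⟩ := ih (fun b hb => ht b (Multiset.mem_cons_of_mem hb))
          obtain ⟨-, h3, h4⟩ := ht a (Multiset.mem_cons_self a t)
          rw [Multiset.map_cons, Multiset.prod_cons, Multiset.map_cons, Multiset.sum_cons,
            Real.log_mul h4.ne' h1.ne', h2, h3]
          exact ⟨mul_pos h4 h1, rfl⟩
      exact key _ hr
    obtain ⟨hρ0, hρl⟩ := hρpos
    have hsum : (Multiset.map (fun v => Real.log (u + v) - Real.log (u - v))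
        ((out A).map fun a => (‖a‖ - 1) / (‖a‖ + 1))).sum = Real.log ρ := by
      rw [hρl, Multiset.map_map]
      rfl
    rw [hsum] at hu
    obtain ⟨η, hη⟩ : ∃ η : ℝ, η = H * ρ / x ^ g := ⟨_, rfl⟩
    have hη5 : η ≤ Real.exp (-5) := by
      have h1 : 0 < η := by rw [hη]; positivity
      rw [← Real.log_le_iff_le_exp h1, hη, Real.log_div (by positivity) (by positivity),
        Real.log_mul (by positivity) hρ0.ne', Real.log_pow]
      have h2 : (g:ℝ) * (2 * u) ≤ g * Real.log x := mul_le_mul_of_nonneg_left hlx hg0.le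
      nlinarith
    have he5 : Real.exp (-5) ≤ 1 / 140 := by
      rw [Real.exp_neg, inv_eq_one_div]
      apply one_div_le_one_div_of_le (by norm_num)
      have h1 : Real.exp 5 = Real.exp 1 ^ 5 := by
        rw [← Real.exp_nat_mul]
        norm_num
      rw [h1]
      have h2 := Real.exp_one_gt_d9
      calc (140:ℝ) ≤ 2.7 ^ 5 := by norm_num
        _ ≤ Real.exp 1 ^ 5 := pow_le_pow_left₀ (by norm_num) (by linarith) 5
    have hA0 : ∀ z : ℂ, ‖z‖ = x → A.eval z ≠ 0 := by
      intro z hz h0
      have hzr : z ∈ A.roots := (mem_roots hA).2 h0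
      have : z ∈ out A := Multiset.mem_filter.2 ⟨hzr, by rw [hz]; exact hx1⟩
      exact (hr z this).1 hz.symm
    have hBx : ∀ z : ℂ, ‖z‖ = x → ‖B.eval z‖ ≤ η * (x ^ N * ‖A.eval z‖) := by
      intro z hz
      have h1 := ext_bound hA (by linarith : (0:ℝ) ≤ H) hdeg hB hx1
        (fun a ha => (hr a ha).1) hz
      rw [← hρ] at h1
      rw [hη]
      have h2 : 0 < x ^ g := by positivity
      have h3 : H * ρ / x ^ g * (x ^ N * ‖A.eval z‖) = (H * x ^ N * ‖A.eval z‖ * ρ) / x ^ g := by
        field_simp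
      rw [h3, le_div_iff₀ h2]
      exact h1
    have hc := core hx1.le (lt_of_le_of_lt (hη5.trans he5) (by norm_num)) hA hA0 hBx (by omega)
    rw [← hk] at hc
    have hMf : 0 ≤ (X ^ N * A + B).mahlerMeasure := mahlerMeasure_nonneg _
    have hxk : x ^ k ≤ Real.exp (61 / 1000 + 1 / 10000) := by
      rw [← Real.exp_log (by positivity : 0 < x ^ k), Real.log_pow]
      apply Real.exp_le_exp.2
      have h1 : (k:ℝ) * Real.log x ≤ k * (2 * U / (1 - U)) :=
        mul_le_mul_of_nonneg_left hlx2 (by positivity)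
      have h2 : (k:ℝ) * (2 * U / (1 - U)) ≤ 61 / 1000 + 1 / 10000 := by
        rw [mul_div_assoc', div_le_iff₀ (by linarith)]
        nlinarith
      linarith
    have hexp : Real.exp (61 / 1000 + 1 / 10000) * (93 / 100) ≤ 1 - 1 / 140 := by
      have h1 : Real.exp (61 / 1000 + 1 / 10000) ≤ 10631 / 10000 := by
        have h2 := Real.exp_bound' (x := 61 / 1000 + 1 / 10000) (by norm_num) (by norm_num)
          (n := 3) (by norm_num)
        refine h2.trans ?_
        norm_num [Finset.sum_range_succ, Nat.factorial]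
      calc Real.exp (61 / 1000 + 1 / 10000) * (93 / 100) ≤ 10631 / 10000 * (93 / 100) :=
            mul_le_mul_of_nonneg_right h1 (by norm_num)
        _ ≤ _ := by norm_num
    have h1 : (1 - 1 / 140) * A.mahlerMeasure ≤ (1 - η) * A.mahlerMeasure :=
      mul_le_mul_of_nonneg_right (by linarith [hη5.trans he5]) hMA
    have h2 : x ^ k * (X ^ N * A + B).mahlerMeasure ≤
        Real.exp (61 / 1000 + 1 / 10000) * (X ^ N * A + B).mahlerMeasure :=
      mul_le_mul_of_nonneg_right hxk hMf
    have h3 : Real.exp (61 / 1000 + 1 / 10000) * (93 / 100 * A.mahlerMeasure) ≤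
        Real.exp (61 / 1000 + 1 / 10000) * (X ^ N * A + B).mahlerMeasure := by
      have h4 := mul_le_mul_of_nonneg_right hexp hMA
      calc Real.exp (61 / 1000 + 1 / 10000) * (93 / 100 * A.mahlerMeasure)
          = Real.exp (61 / 1000 + 1 / 10000) * (93 / 100) * A.mahlerMeasure := by ring
        _ ≤ (1 - 1 / 140) * A.mahlerMeasure := h4
        _ ≤ _ := h1.trans (hc.trans h2)
    exact le_of_mul_le_mul_left h3 (Real.exp_pos _)

open Pool.Agent.H338R2 in
/-- the weak Smyth theorem without normalisations -/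
lemma smyth (A : ℤ[X]) (h0 : A.coeff 0 ≠ 0) (h1 : A.reverse ≠ A) (h2 : A.reverse ≠ -A) :
    128 / 100 ≤ (A.map (Int.castRingHom ℂ)).mahlerMeasure := by
  have hA : A ≠ 0 := by
    rintro rfl
    simp at h0
  have hinj : Function.Injective (Int.castRingHom ℂ) := by
    intro a b h
    simpa using h
  have hlc : A.leadingCoeff ≠ 0 := leadingCoeff_ne_zero.2 hA
  by_cases hl : |A.leadingCoeff| = 1
  · by_cases hc : |A.coeff 0| = 1
    · -- main case
      have key : ∀ f : ℤ[X], f.Monic → |f.coeff 0| = 1 → f.reverse ≠ f → f.reverse ≠ -f →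
          128 / 100 ≤ (f.map (Int.castRingHom ℂ)).mahlerMeasure := by
        intro f hf hf0 hf1 hf2
        have hne : f ≠ C (f.coeff 0) * f.reverse := by
          intro hcon
          rcases (abs_eq (by norm_num : (0:ℤ) ≤ 1)).1 hf0 with h | h
          · rw [h, C_1, one_mul] at hcon
            exact hf1 hcon.symm
          · rw [h] at hcon
            apply hf2
            have : (C (-1) : ℤ[X]) = -1 := by simp
            rw [this, neg_one_mul] at hcon
            conv_rhs => rw [hcon]
            rw [neg_neg]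
        have h3 := smyth_lite hf hf0 hne
        have h4 := one_le_MZ hf
        have h5 : 128 / 100 ≤ MZ f := by
          by_contra hcon
          push Not at hcon
          nlinarith
        exact h5
      rcases (abs_eq (by norm_num : (0:ℤ) ≤ 1)).1 hl with h | h
      · exact key A h hc h1 h2
      · have hm : (-A).Monic := by rw [Monic, leadingCoeff_neg, h, neg_neg]
        have h3 := key (-A) hm (by rw [coeff_neg, abs_neg]; exact hc)
          (by rw [reverse_neg]; intro hcon; exact h1 (neg_injective hcon))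
          (by rw [reverse_neg]; intro hcon; exact h2 (neg_injective hcon))
        have h4 : ((-A).map (Int.castRingHom ℂ)).mahlerMeasure =
            (A.map (Int.castRingHom ℂ)).mahlerMeasure := by
          have : (-A).map (Int.castRingHom ℂ) = C (-1) * A.map (Int.castRingHom ℂ) := by
            simp
          rw [this, mahlerMeasure_mul, mahlerMeasure_const]
          simp
        rw [h4] at h3
        exact h3
    · have h3 : 2 ≤ |A.coeff 0| := by
        have := Int.one_le_abs h0
        omega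
      have h4 := norm_coeff_le_choose_mul_mahlerMeasure 0 (A.map (Int.castRingHom ℂ))
      rw [Nat.choose_zero_right, Nat.cast_one, one_mul, coeff_map, eq_intCast,
        Complex.norm_intCast] at h4
      have h5 : (2:ℝ) ≤ |(A.coeff 0 : ℝ)| := by exact_mod_cast h3
      linarith
  · have h3 : 2 ≤ |A.leadingCoeff| := by
      have := Int.one_le_abs hlc
      omega
    have h4 := (A.map (Int.castRingHom ℂ)).leadingCoeff_le_mahlerMeasure
    rw [leadingCoeff_map_of_injective hinj, eq_intCast, Complex.norm_intCast] at h4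
    have h5 : (2:ℝ) ≤ |(A.leadingCoeff : ℝ)| := by exact_mod_cast h3
    linarith

/-- the number of zeros outside the closed unit disc -/
noncomputable def outer (A : ℤ[X]) : ℕ := (out (A.map (Int.castRingHom ℂ))).card

theorem main_int (A B : ℤ[X]) (N g : ℕ) (H : ℝ) (hH : 1 ≤ H) (hg1 : 1 ≤ g) (hA : A ≠ 0)
    (hdeg : B.natDegree + g ≤ N + A.natDegree)
    (hB : ∀ z : ℂ, ‖z‖ = 1 → ‖aeval z B‖ ≤ H * ‖aeval z A‖)
    (hg : 250 * (outer A : ℝ) * (outer A + Real.log H) ≤ g) :
    93 / 100 * (A.map (Int.castRingHom ℂ)).mahlerMeasure ≤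
      ((X ^ N * A + B).map (Int.castRingHom ℂ)).mahlerMeasure := by
  have hinj : Function.Injective (Int.castRingHom ℂ) := by
    intro a b h
    simpa using h
  have h1 := main_complex (A := A.map (Int.castRingHom ℂ)) (B := B.map (Int.castRingHom ℂ))
    ((Polynomial.map_ne_zero_iff hinj).mpr hA) (N := N) (g := g) hH hg1
    (by rw [natDegree_map_eq_of_injective hinj, natDegree_map_eq_of_injective hinj]; exact hdeg)
    (by
      intro z hz
      rw [eval_map, eval_map]
      exact hB z hz) hg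
  rw [Polynomial.map_add, Polynomial.map_mul, Polynomial.map_pow, map_X]
  exact h1

end Pool.Agent.N772.SC
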