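import Pool.Agent.N772.SC.Main

/-!
# Mahler measures of `X ^ N A + B`, `B` of small length
-/

set_option autoImplicit false

open Polynomial MeasureTheory

namespace Pool.Agent.N772.SC

lemma int_log_sub {δ a : ℝ} (hδ : 0 < δ) :
    δ * (Real.log (δ / 2) - 1) ≤ ∫ x in (0:ℝ)..δ, Real.log (x - a) := by
  rw [intervalIntegral.integral_comp_sub_right (fun x => Real.log x) a, integral_log]
  -- `(δ - a) log |δ - a| + a log |a| - δ`
  have e1 : Real.log (0 - a) = Real.log a := by rw [zero_sub, Real.log_neg_eq_log]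
  rw [e1]
  have key : δ * Real.log (δ / 2) ≤ (δ - a) * Real.log (δ - a) + a * Real.log a := by
    rcases le_or_gt a 0 with ha | ha
    · -- `a ≤ 0`
      have h1 : Real.log (δ / 2) ≤ Real.log (δ - a) :=
        Real.log_le_log (by positivity) (by linarith)
      have h2 : Real.log a = Real.log (-a) := (Real.log_neg_eq_log a).symm
      rcases eq_or_lt_of_le ha with h0 | h0
      · rw [h0]
        simp only [sub_zero, zero_mul, add_zero]
        exact mul_le_mul_of_nonneg_left (by
          apply Real.log_le_log (by positivity); linarith) hδ.le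
      · have h3 : Real.log (-a) ≤ Real.log (δ - a) :=
          Real.log_le_log (by linarith) (by linarith)
        rw [h2]
        nlinarith
    · rcases le_or_gt δ a with hb | hb
      · have h2 : Real.log (δ - a) = Real.log (a - δ) := by
          rw [← Real.log_neg_eq_log, neg_sub]
        rw [h2]
        rcases eq_or_lt_of_le hb with h0 | h0
        · rw [← h0]
          simp only [sub_self, zero_mul, zero_add]
          exact mul_le_mul_of_nonneg_left (by
            apply Real.log_le_log (by positivity); linarith) hδ.le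
        · have h3 : Real.log (a - δ) ≤ Real.log a :=
            Real.log_le_log (by linarith) (by linarith)
          have h1 : Real.log (δ / 2) ≤ Real.log a :=
            Real.log_le_log (by positivity) (by linarith)
          nlinarith
      · -- `0 < a < δ`
        have h1 := Real.one_sub_inv_le_log_of_pos (show (0:ℝ) < a / (δ / 2) by positivity)
        have h2 := Real.one_sub_inv_le_log_of_pos (show (0:ℝ) < (δ - a) / (δ / 2) from
          div_pos (by linarith) (by positivity))
        rw [Real.log_div ha.ne' (by positivity), inv_div] at h1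
        rw [Real.log_div (by linarith) (by positivity), inv_div] at h2
        have h3 := mul_le_mul_of_nonneg_left h1 ha.le
        have h4 := mul_le_mul_of_nonneg_left h2 (show (0:ℝ) ≤ δ - a by linarith)
        have e3 : a * (1 - δ / 2 / a) = a - δ / 2 := by field_simp
        have hda : δ - a ≠ 0 := by linarith
        have e4 : (δ - a) * (1 - δ / 2 / (δ - a)) = δ - a - δ / 2 := by field_simp
        rw [e3] at h3
        rw [e4] at h4
        nlinarith
  nlinarith

lemma ii_sub (δ a : ℝ) : IntervalIntegrable (fun x => Real.log (x - a)) volume 0 δ := ii2 δ a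

lemma ii_sub_sum (s : Multiset ℝ) (δ : ℝ) :
    IntervalIntegrable (fun x => (s.map fun a => Real.log (x - a)).sum) volume 0 δ := by
  induction s using Multiset.induction_on with
  | empty => simp
  | cons a s ih =>
    have h : (fun x => ((a ::ₘ s).map fun a => Real.log (x - a)).sum) =
        fun x => Real.log (x - a) + (s.map fun a => Real.log (x - a)).sum := by
      ext x
      rw [Multiset.map_cons, Multiset.sum_cons]
    rw [h]
    exact (ii_sub δ a).add ih

lemma int_sub_sum (s : Multiset ℝ) {δ : ℝ} (hδ : 0 < δ) :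
    s.card * (δ * (Real.log (δ / 2) - 1)) ≤
      ∫ x in (0:ℝ)..δ, (s.map fun a => Real.log (x - a)).sum := by
  induction s using Multiset.induction_on with
  | empty => simp
  | cons a s ih =>
    simp only [Multiset.map_cons, Multiset.sum_cons, Multiset.card_cons]
    rw [intervalIntegral.integral_add (ii_sub δ a) (ii_sub_sum s δ)]
    have := int_log_sub (a := a) hδ
    push_cast
    linarith

/-- choice of the radius `1 + x` -/
theorem exists_radius' (s : Multiset ℝ) (g : ℝ) {δ : ℝ} (hδ : 0 < δ) :
    ∃ x, 0 < x ∧ x ≤ δ ∧ (∀ a ∈ s, x ≠ a) ∧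
      g * (δ / 2) + s.card * (Real.log (δ / 2) - 1) ≤
        g * x + (s.map fun a => Real.log (x - a)).sum := by
  classical
  obtain ⟨Φ, hΦ⟩ : ∃ Φ : ℝ → ℝ, Φ = fun x => g * x + (s.map fun a => Real.log (x - a)).sum :=
    ⟨_, rfl⟩
  have hii0 : IntervalIntegrable (fun x => g * x) volume 0 δ :=
    (continuous_const.mul continuous_id).intervalIntegrable _ _
  have hii : IntervalIntegrable Φ volume 0 δ := by
    rw [hΦ]
    exact hii0.add (ii_sub_sum s δ)
  have hint : g * (δ ^ 2 / 2) + s.card * (δ * (Real.log (δ / 2) - 1)) ≤ ∫ x in (0:ℝ)..δ, Φ x := by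
    rw [hΦ, intervalIntegral.integral_add hii0 (ii_sub_sum s δ),
      intervalIntegral.integral_const_mul, integral_id]
    have := int_sub_sum s hδ
    linarith
  have hμ : (volume.restrict (Set.Ioc (0:ℝ) δ)) ≠ 0 := by
    rw [Ne, Measure.restrict_eq_zero, Real.volume_Ioc]
    simp [hδ]
  have : IsFiniteMeasure (volume.restrict (Set.Ioc (0:ℝ) δ)) := by
    constructor
    rw [Measure.restrict_apply_univ, Real.volume_Ioc]
    exact ENNReal.ofReal_lt_top
  have hnull : (volume.restrict (Set.Ioc (0:ℝ) δ)) ((Set.Ioc (0:ℝ) δ)ᶜ ∪ (s.toFinset : Set ℝ)) = 0 := by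
    apply measure_union_null
    · rw [Measure.restrict_apply (measurableSet_Ioc.compl)]
      simp
    · exact (Finset.finite_toSet _).measure_zero _
  obtain ⟨u, hu, hle⟩ := exists_notMem_null_average_le hμ (hii.1) hnull
  rw [Set.mem_union, not_or] at hu
  obtain ⟨hu1, hu2⟩ := hu
  rw [Set.notMem_compl_iff] at hu1
  refine ⟨u, hu1.1, hu1.2, ?_, ?_⟩
  · intro v hv h
    apply hu2
    rw [h]
    simpa using hv
  · have h1 : ⨍ a in Set.Ioc (0:ℝ) δ, Φ a = δ⁻¹ * ∫ u in (0:ℝ)..δ, Φ u := by
      rw [setAverage_eq, intervalIntegral.integral_of_le hδ.le, smul_eq_mul]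
      congr 2
      rw [Measure.real, Real.volume_Ioc, sub_zero, ENNReal.toReal_ofReal hδ.le]
    rw [h1] at hle
    have h2 := mul_le_mul_of_nonneg_left hint (by positivity : (0:ℝ) ≤ δ⁻¹)
    have h3 : δ⁻¹ * (g * (δ ^ 2 / 2) + s.card * (δ * (Real.log (δ / 2) - 1))) =
        g * (δ / 2) + s.card * (Real.log (δ / 2) - 1) := by
      field_simp
    rw [h3] at h2
    have h4 : Φ u = g * u + (s.map fun a => Real.log (u - a)).sum := by rw [hΦ]
    rw [← h4]
    linarith

lemma prod_low (A : ℂ[X]) {x : ℝ} {z : ℂ} (hz : ‖z‖ = x) (hxa : ∀ a ∈ A.roots, x ≠ ‖a‖) :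
    (A.roots.map fun a => Real.log (x - ‖a‖)).sum ≤
      Real.log (A.roots.map fun a => ‖z - a‖).prod ∧ 0 < (A.roots.map fun a => ‖z - a‖).prod := by
  have key : ∀ s : Multiset ℂ, (∀ a ∈ s, x ≠ ‖a‖) →
      (s.map fun a => Real.log (x - ‖a‖)).sum ≤ Real.log (s.map fun a => ‖z - a‖).prod ∧
        0 < (s.map fun a => ‖z - a‖).prod := by
    intro s
    induction s using Multiset.induction_on with
    | empty => simp
    | cons a s ih =>
      intro hs
      obtain ⟨h1, h2⟩ := ih (fun b hb => hs b (Multiset.mem_cons_of_mem hb))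
      have h3 := hs a (Multiset.mem_cons_self a s)
      have h4 : 0 < |x - ‖a‖| := abs_pos.2 (sub_ne_zero.2 h3)
      have h5 : |x - ‖a‖| ≤ ‖z - a‖ := by
        have := abs_norm_sub_norm_le z a
        rwa [hz] at this
      have h6 : 0 < ‖z - a‖ := lt_of_lt_of_le h4 h5
      rw [Multiset.map_cons, Multiset.sum_cons, Multiset.map_cons, Multiset.prod_cons,
        Real.log_mul h6.ne' h2.ne']
      refine ⟨?_, mul_pos h6 h2⟩
      have h7 : Real.log (x - ‖a‖) ≤ Real.log ‖z - a‖ := by
        rw [← Real.log_abs]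
        exact Real.log_le_log h4 h5
      linarith
  exact key _ hxa

/-- **Main estimate** for a long gap -/
theorem gap_complex {A B : ℂ[X]} (hlead : 1 ≤ ‖A.leadingCoeff‖) {N g : ℕ} {L : ℝ} (hL : 1 ≤ L)
    (hg1 : 1 ≤ g) (hdeg : B.natDegree + g ≤ N)
    (hB : ∀ z : ℂ, 1 ≤ ‖z‖ → ‖B.eval z‖ ≤ L * ‖z‖ ^ B.natDegree)
    (hg : 45 * ((out A).card : ℝ) * (A.natDegree * (1 + Real.log (40 * (out A).card)) +
      Real.log L + 5) ≤ g) :
    94 / 100 * A.mahlerMeasure ≤ (X ^ N * A + B).mahlerMeasure := by
  classical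
  have hA : A ≠ 0 := by
    rintro rfl
    simp at hlead
    linarith
  have hMA : 0 ≤ A.mahlerMeasure := mahlerMeasure_nonneg A
  obtain ⟨k, hk⟩ : ∃ k, k = (out A).card := ⟨_, rfl⟩
  rw [← hk] at hg
  have hlL : 0 ≤ Real.log L := Real.log_nonneg hL
  rcases Nat.eq_zero_or_pos k with hk0 | hk0
  · have hout : out A = 0 := by
      rw [← Multiset.card_eq_zero, ← hk, hk0]
    have h1 : A.mahlerMeasure = ‖A.leadingCoeff‖ := by
      rw [mahlerMeasure_eq_leadingCoeff_mul_prod_roots]
      have h2 : (A.roots.map fun a => max 1 ‖a‖).prod = 1 := by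
        apply Multiset.prod_eq_one
        intro y hy
        obtain ⟨a, ha, rfl⟩ := Multiset.mem_map.1 hy
        apply max_eq_left
        by_contra hcon
        have : a ∈ out A := Multiset.mem_filter.2 ⟨ha, not_le.1 hcon⟩
        rw [hout] at this
        exact Multiset.notMem_zero a this
      rw [h2, mul_one]
    have h3 : (X ^ N * A + B).leadingCoeff = A.leadingCoeff := by
      have h4 : (X ^ N * A).natDegree = N + A.natDegree := by
        rw [natDegree_mul (pow_ne_zero _ X_ne_zero) hA, natDegree_X_pow]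
      rw [leadingCoeff_add_of_degree_lt' (by
        apply degree_lt_degree
        rw [h4]
        omega), leadingCoeff_mul, leadingCoeff_X_pow, one_mul]
    have h4 := leadingCoeff_le_mahlerMeasure (X ^ N * A + B)
    rw [h3, ← h1] at h4
    linarith
  · have hk1 : (1:ℝ) ≤ k := by exact_mod_cast hk0
    have hg0 : (0:ℝ) < g := by exact_mod_cast hg1
    obtain ⟨δ, hδ⟩ : ∃ δ : ℝ, δ = 1 / (20 * k) := ⟨_, rfl⟩
    have hδ0 : 0 < δ := by rw [hδ]; positivity
    have hkδ : k * δ = 1 / 20 := by rw [hδ]; field_simp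
    have hδ1 : δ ≤ 1 / 20 := by nlinarith
    have hcard : A.roots.card = A.natDegree := (splits_iff_card_roots.1 (IsAlgClosed.splits A))
    obtain ⟨g', hg'⟩ : ∃ g' : ℝ, g' = 20 / 21 * g := ⟨_, rfl⟩
    obtain ⟨y, hy0, hyδ, hys, hy⟩ := exists_radius' (A.roots.map fun a => ‖a‖ - 1) g' hδ0
    rw [Multiset.card_map, hcard, Multiset.map_map] at hy
    obtain ⟨x, hx⟩ : ∃ x : ℝ, x = 1 + y := ⟨_, rfl⟩
    have hx1 : 1 < x := by linarith
    have hx0 : 0 < x := by linarith
    have hlx : 20 / 21 * y ≤ Real.log x := by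
      have h1 := Real.one_sub_inv_le_log_of_pos hx0
      have h2 : 1 - x⁻¹ = y / x := by rw [hx]; field_simp; ring
      rw [h2] at h1
      refine le_trans ?_ h1
      rw [le_div_iff₀ hx0, hx]
      nlinarith
    have hlx2 : Real.log x ≤ y := by
      have h1 := Real.log_le_sub_one_of_pos hx0
      linarith
    have hxa : ∀ a ∈ A.roots, x ≠ ‖a‖ := by
      intro a ha h
      apply hys (‖a‖ - 1) (Multiset.mem_map_of_mem _ ha)
      linarith
    have hsum : (Multiset.map ((fun a => Real.log (y - a)) ∘ fun a => ‖a‖ - 1) A.roots).sum =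
        (A.roots.map fun a => Real.log (x - ‖a‖)).sum := by
      congr 1
      apply Multiset.map_congr rfl
      intro a _
      simp only [Function.comp]
      congr 1
      rw [hx]
      ring
    rw [hsum] at hy
    have hlogδ : Real.log (δ / 2) = -Real.log (40 * k) := by
      rw [← Real.log_inv, hδ]
      congr 1
      field_simp
      norm_num
    rw [hlogδ] at hy
    have hgδ : A.natDegree * (1 + Real.log (40 * k)) + Real.log L + 5 ≤ g' * (δ / 2) := by
      have e1 : g' * (δ / 2) = g / (42 * k) := by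
        rw [hg', hδ]
        field_simp
        norm_num
      rw [e1, le_div_iff₀ (by positivity)]
      have h0 : 0 ≤ (A.natDegree:ℝ) * (1 + Real.log (40 * k)) + Real.log L + 5 := by
        have : 0 ≤ Real.log (40 * k) := Real.log_nonneg (by linarith)
        positivity
      calc ((A.natDegree:ℝ) * (1 + Real.log (40 * k)) + Real.log L + 5) * (42 * k)
          ≤ ((A.natDegree:ℝ) * (1 + Real.log (40 * k)) + Real.log L + 5) * (45 * k) :=
            mul_le_mul_of_nonneg_left (by linarith) h0
        _ = 45 * k * (A.natDegree * (1 + Real.log (40 * k)) + Real.log L + 5) := by ring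
        _ ≤ g := hg
    have hA0 : ∀ z : ℂ, ‖z‖ = x → A.eval z ≠ 0 := by
      intro z hz h0
      exact hxa z ((mem_roots hA).2 h0) hz.symm
    have hBx : ∀ z : ℂ, ‖z‖ = x → ‖B.eval z‖ ≤ Real.exp (-5) * (x ^ N * ‖A.eval z‖) := by
      intro z hz
      obtain ⟨h1, h2⟩ := prod_low A hz hxa
      have h3 := hB z (by rw [hz]; exact hx1.le)
      rw [hz] at h3
      have h4 : x ^ B.natDegree * x ^ g ≤ x ^ N := by
        rw [← pow_add]
        exact pow_le_pow_right₀ hx1.le hdeg
      have h5 : L ≤ Real.exp (-5) * (x ^ g * (A.roots.map fun a => ‖z - a‖).prod) := by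
        have h6 : 0 < Real.exp (-5) * (x ^ g * (A.roots.map fun a => ‖z - a‖).prod) := by
          positivity
        rw [← Real.log_le_log_iff (by linarith) h6, Real.log_mul (Real.exp_pos _).ne'
          (by positivity), Real.log_exp, Real.log_mul (by positivity) h2.ne', Real.log_pow]
        have h7 : g' * y ≤ g * Real.log x := by
          rw [hg']
          calc 20 / 21 * g * y = g * (20 / 21 * y) := by ring
            _ ≤ g * Real.log x := mul_le_mul_of_nonneg_left hlx hg0.le
        linarith
      have h8 : (A.roots.map fun a => ‖z - a‖).prod ≤ ‖A.eval z‖ := by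
        rw [norm_eval_eq]
        nlinarith
      calc ‖B.eval z‖ ≤ L * x ^ B.natDegree := h3
        _ ≤ Real.exp (-5) * (x ^ g * (A.roots.map fun a => ‖z - a‖).prod) * x ^ B.natDegree :=
            mul_le_mul_of_nonneg_right h5 (by positivity)
        _ = Real.exp (-5) * ((x ^ B.natDegree * x ^ g) * (A.roots.map fun a => ‖z - a‖).prod) := by
            ring
        _ ≤ Real.exp (-5) * (x ^ N * ‖A.eval z‖) := by
            apply mul_le_mul_of_nonneg_left _ (Real.exp_pos _).le
            exact mul_le_mul h4 h8 h2.le (by positivity)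
    have he5 : Real.exp (-5) ≤ 1 / 140 := by
      rw [Real.exp_neg, inv_eq_one_div]
      apply one_div_le_one_div_of_le (by norm_num)
      have h1 : Real.exp 5 = Real.exp 1 ^ 5 := by
        rw [← Real.exp_nat_mul]
        norm_num
      rw [h1]
      have h2 := Real.exp_one_gt_d9
      calc (140:ℝ) ≤ 2.7 ^ 5 := by norm_num
        _ ≤ Real.exp 1 ^ 5 := pow_le_pow_left₀ (by norm_num) (by linarith) 5
    have hc := core hx1.le (lt_of_le_of_lt he5 (by norm_num)) hA hA0 hBx (by omega)
    rw [← hk] at hc
    have hMf : 0 ≤ (X ^ N * A + B).mahlerMeasure := mahlerMeasure_nonneg _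
    have hxk : x ^ k ≤ Real.exp (1 / 20) := by
      rw [← Real.exp_log (by positivity : 0 < x ^ k), Real.log_pow]
      apply Real.exp_le_exp.2
      have h1 : (k:ℝ) * Real.log x ≤ k * δ :=
        mul_le_mul_of_nonneg_left (hlx2.trans hyδ) (by positivity)
      linarith
    have hexp : Real.exp (1 / 20) * (94 / 100) ≤ 1 - 1 / 140 := by
      have h1 : Real.exp (1 / 20) ≤ 10513 / 10000 := by
        have h2 := Real.exp_bound' (x := 1 / 20) (by norm_num) (by norm_num)
          (n := 4) (by norm_num)
        refine h2.trans ?_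
        norm_num [Finset.sum_range_succ, Nat.factorial]
      calc Real.exp (1 / 20) * (94 / 100) ≤ 10513 / 10000 * (94 / 100) :=
            mul_le_mul_of_nonneg_right h1 (by norm_num)
        _ ≤ _ := by norm_num
    have h1 : (1 - 1 / 140) * A.mahlerMeasure ≤ (1 - Real.exp (-5)) * A.mahlerMeasure :=
      mul_le_mul_of_nonneg_right (by linarith) hMA
    have h2 : x ^ k * (X ^ N * A + B).mahlerMeasure ≤
        Real.exp (1 / 20) * (X ^ N * A + B).mahlerMeasure :=
      mul_le_mul_of_nonneg_right hxk hMf
    have h3 : Real.exp (1 / 20) * (94 / 100 * A.mahlerMeasure) ≤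
        Real.exp (1 / 20) * (X ^ N * A + B).mahlerMeasure := by
      have h4 := mul_le_mul_of_nonneg_right hexp hMA
      calc Real.exp (1 / 20) * (94 / 100 * A.mahlerMeasure)
          = Real.exp (1 / 20) * (94 / 100) * A.mahlerMeasure := by ring
        _ ≤ (1 - 1 / 140) * A.mahlerMeasure := h4
        _ ≤ _ := h1.trans (hc.trans h2)
    exact le_of_mul_le_mul_left h3 (Real.exp_pos _)

/-- the sum of the absolute values of the coefficients -/
noncomputable def length (B : ℤ[X]) : ℝ := ∑ i ∈ B.support, |(B.coeff i : ℝ)|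

lemma norm_aeval_le (B : ℤ[X]) {z : ℂ} (hz : 1 ≤ ‖z‖) :
    ‖(B.map (Int.castRingHom ℂ)).eval z‖ ≤ length B * ‖z‖ ^ B.natDegree := by
  rw [eval_map, eval₂_eq_sum, Polynomial.sum, length, Finset.sum_mul]
  refine (norm_sum_le _ _).trans (Finset.sum_le_sum fun i hi => ?_)
  rw [norm_mul, norm_pow, eq_intCast, Complex.norm_intCast]
  exact mul_le_mul_of_nonneg_left (pow_le_pow_right₀ hz (le_natDegree_of_mem_supp i hi))
    (abs_nonneg _)

theorem gap_int (A B : ℤ[X]) (N g : ℕ) (hA : A ≠ 0) (hB : B ≠ 0) (hg1 : 1 ≤ g)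
    (hdeg : B.natDegree + g ≤ N)
    (hg : 45 * (outer A : ℝ) * (A.natDegree * (1 + Real.log (40 * outer A)) +
      Real.log (length B) + 5) ≤ g) :
    94 / 100 * (A.map (Int.castRingHom ℂ)).mahlerMeasure ≤
      ((X ^ N * A + B).map (Int.castRingHom ℂ)).mahlerMeasure := by
  have hinj : Function.Injective (Int.castRingHom ℂ) := by
    intro a b h
    simpa using h
  have hL : 1 ≤ length B := by
    have h1 : B.natDegree ∈ B.support := natDegree_mem_support_of_nonzero hB
    have h2 : |(B.coeff B.natDegree : ℝ)| ≤ length B :=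
      Finset.single_le_sum (f := fun i => |(B.coeff i : ℝ)|) (fun _ _ => abs_nonneg _) h1
    have h3 : 1 ≤ |B.coeff B.natDegree| := Int.one_le_abs (mem_support_iff.1 h1)
    have h4 : (1:ℝ) ≤ |(B.coeff B.natDegree : ℝ)| := by exact_mod_cast h3
    linarith
  have h1 := gap_complex (A := A.map (Int.castRingHom ℂ)) (B := B.map (Int.castRingHom ℂ))
    (by
      rw [leadingCoeff_map_of_injective hinj, eq_intCast, Complex.norm_intCast]
      have := Int.one_le_abs (leadingCoeff_ne_zero.2 hA)
      exact_mod_cast this) (N := N) (g := g) hL hg1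
    (by rw [natDegree_map_eq_of_injective hinj]; exact hdeg)
    (by
      intro z hz
      rw [natDegree_map_eq_of_injective hinj]
      exact norm_aeval_le B hz)
    (by
      rw [natDegree_map_eq_of_injective hinj]
      exact hg)
  rw [Polynomial.map_add, Polynomial.map_mul, Polynomial.map_pow, map_X]
  exact h1

end Pool.Agent.N772.SC
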