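import Mathlib

/-!
# A maximum principle outside the unit disc
-/

set_option autoImplicit false

open Polynomial

namespace Pool.Agent.N772.SC

/-- maximum principle for a quotient of polynomials -/
lemma max_disc (n : ℕ) : ∀ (P Q : ℂ[X]) (H : ℝ), Q.natDegree = n → 0 ≤ H →
    (∀ w : ℂ, ‖w‖ < 1 → Q.eval w ≠ 0) →
    (∀ w : ℂ, ‖w‖ = 1 → ‖P.eval w‖ ≤ H * ‖Q.eval w‖) →
    ∀ w : ℂ, ‖w‖ ≤ 1 → ‖P.eval w‖ ≤ H * ‖Q.eval w‖ := by
  induction n with
  | zero =>
    intro P Q H hn hH h0 h w hw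
    obtain ⟨c, hc⟩ : ∃ c, Q = C c := ⟨_, eq_C_of_natDegree_eq_zero hn⟩
    have h1 : ‖P.eval w‖ ≤ H * ‖c‖ := by
      apply Complex.norm_le_of_forall_mem_frontier_norm_le (U := Metric.ball (0:ℂ) 1)
        Metric.isBounded_ball (f := fun w => P.eval w)
      · exact P.differentiable.diffContOnCl
      · intro z hz
        rw [frontier_ball (0:ℂ) one_ne_zero, mem_sphere_zero_iff_norm] at hz
        have := h z hz
        rwa [hc, eval_C] at this
      · rw [closure_ball (0:ℂ) one_ne_zero, mem_closedBall_zero_iff]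
        exact hw
    rw [hc, eval_C]
    exact h1
  | succ n ih =>
    intro P Q H hn hH h0 h w hw
    have hQ : Q ≠ 0 := by
      rintro rfl
      simp at hn
    by_cases hz : ∃ ζ : ℂ, ‖ζ‖ = 1 ∧ Q.eval ζ = 0
    · obtain ⟨ζ, hζ, hQζ⟩ := hz
      have hPζ : P.eval ζ = 0 := by
        have := h ζ hζ
        rw [hQζ, norm_zero, mul_zero] at this
        exact norm_le_zero_iff.1 this
      obtain ⟨Q1, hQ1⟩ := dvd_iff_isRoot.2 hQζ
      obtain ⟨P1, hP1⟩ := dvd_iff_isRoot.2 hPζ
      have hQ10 : Q1 ≠ 0 := by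
        rintro rfl
        exact hQ (by rw [hQ1, mul_zero])
      have hn1 : Q1.natDegree = n := by
        have := congrArg natDegree hQ1
        rw [natDegree_mul (X_sub_C_ne_zero ζ) hQ10, natDegree_X_sub_C, hn] at this
        omega
      have hev : ∀ u : ℂ, ‖P.eval u‖ = ‖u - ζ‖ * ‖P1.eval u‖ := by
        intro u
        conv_lhs => rw [hP1]
        simp
      have hev' : ∀ u : ℂ, ‖Q.eval u‖ = ‖u - ζ‖ * ‖Q1.eval u‖ := by
        intro u
        conv_lhs => rw [hQ1]
        simp
      have h1 : ∀ u : ℂ, ‖u‖ = 1 → u ≠ ζ → ‖P1.eval u‖ ≤ H * ‖Q1.eval u‖ := by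
        intro u hu hne
        have h2 := h u hu
        rw [hev, hev'] at h2
        have h3 : 0 < ‖u - ζ‖ := norm_pos_iff.2 (sub_ne_zero.2 hne)
        have h4 : ‖u - ζ‖ * ‖P1.eval u‖ ≤ ‖u - ζ‖ * (H * ‖Q1.eval u‖) := by linarith
        exact le_of_mul_le_mul_left h4 h3
      have h2 : ∀ u : ℂ, ‖u‖ = 1 → ‖P1.eval u‖ ≤ H * ‖Q1.eval u‖ := by
        intro u hu
        by_cases hne : u = ζ
        · subst hne
          have hlim : Filter.Tendsto (fun n : ℕ => u * Complex.exp ((1 / ((n : ℝ) + 1) : ℝ) * Complex.I))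
              Filter.atTop (nhds u) := by
            have h3 : Filter.Tendsto (fun n : ℕ => (1 / ((n : ℝ) + 1) : ℝ)) Filter.atTop (nhds 0) :=
              tendsto_one_div_add_atTop_nhds_zero_nat
            have h4 : Continuous fun t : ℝ => u * Complex.exp (t * Complex.I) := by fun_prop
            have h5 := (h4.tendsto 0).comp h3
            simp only [Complex.ofReal_zero, zero_mul, Complex.exp_zero, mul_one] at h5
            exact h5
          have hc1 : Continuous fun v : ℂ => ‖P1.eval v‖ := by fun_prop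
          have hc2 : Continuous fun v : ℂ => H * ‖Q1.eval v‖ := by fun_prop
          refine le_of_tendsto_of_tendsto' ((hc1.tendsto u).comp hlim) ((hc2.tendsto u).comp hlim) ?_
          intro m
          simp only [Function.comp]
          have hpos : (0:ℝ) < 1 / ((m : ℝ) + 1) := by positivity
          have hle : 1 / ((m : ℝ) + 1) ≤ 1 := by
            rw [div_le_one (by positivity)]
            linarith [(Nat.cast_nonneg m : (0:ℝ) ≤ m)]
          apply h1
          · rw [norm_mul, Complex.norm_exp_ofReal_mul_I, hu, mul_one]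
          · intro hcon
            have hu0 : u ≠ 0 := by
              rintro rfl
              simp at hu
            have h6 : Complex.exp ((1 / ((m : ℝ) + 1) : ℝ) * Complex.I) = 1 := by
              have h7 : u * Complex.exp ((1 / ((m : ℝ) + 1) : ℝ) * Complex.I) = u * 1 := by
                rw [hcon, mul_one]
              exact mul_left_cancel₀ hu0 h7
            have h8 := congrArg Complex.im h6
            rw [Complex.exp_ofReal_mul_I_im, Complex.one_im] at h8
            have h9 : 0 < Real.sin (1 / ((m : ℝ) + 1)) :=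
              Real.sin_pos_of_pos_of_lt_pi hpos (by linarith [Real.pi_gt_three])
            linarith
        · exact h1 u hu hne
      have h3 := ih P1 Q1 H hn1 hH (by
        intro u hu hu0
        apply h0 u hu
        rw [hQ1]
        simp [hu0]) h2 w hw
      rw [hev, hev']
      calc ‖w - ζ‖ * ‖P1.eval w‖ ≤ ‖w - ζ‖ * (H * ‖Q1.eval w‖) :=
            mul_le_mul_of_nonneg_left h3 (norm_nonneg _)
        _ = _ := by ring
    · push Not at hz
      have hne : ∀ u : ℂ, ‖u‖ ≤ 1 → Q.eval u ≠ 0 := by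
        intro u hu
        rcases lt_or_eq_of_le hu with h1 | h1
        · exact h0 u h1
        · exact hz u h1
      have hd : DiffContOnCl ℂ (fun u : ℂ => P.eval u / Q.eval u) (Metric.ball (0:ℂ) 1) := by
        apply DifferentiableOn.diffContOnCl
        intro u hu
        rw [closure_ball (0:ℂ) one_ne_zero, mem_closedBall_zero_iff] at hu
        exact (P.differentiable u).differentiableWithinAt.div
          (Q.differentiable u).differentiableWithinAt (hne u hu)
      have h1 : ‖P.eval w / Q.eval w‖ ≤ H := by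
        apply Complex.norm_le_of_forall_mem_frontier_norm_le (U := Metric.ball (0:ℂ) 1)
          Metric.isBounded_ball (f := fun u => P.eval u / Q.eval u) hd
        · intro z hz1
          rw [frontier_ball (0:ℂ) one_ne_zero, mem_sphere_zero_iff_norm] at hz1
          rw [norm_div, div_le_iff₀ (norm_pos_iff.2 (hne z hz1.le))]
          exact h z hz1
        · rw [closure_ball (0:ℂ) one_ne_zero, mem_closedBall_zero_iff]
          exact hw
      rw [norm_div, div_le_iff₀ (norm_pos_iff.2 (hne w hw))] at h1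
      exact h1

open ComplexConjugate

lemma le_of_sq_le_sq' {a b : ℝ} (h : a ^ 2 ≤ b ^ 2) (hb : 0 ≤ b) : a ≤ b :=
  (le_abs_self a).trans (abs_le_of_sq_le_sq h hb)

lemma norm_sq_id (z α : ℂ) : ‖1 - conj α * z‖ ^ 2 = ‖z - α‖ ^ 2 + (‖z‖ ^ 2 - 1) * (‖α‖ ^ 2 - 1) := by
  simp only [Complex.sq_norm, Complex.normSq_apply, Complex.sub_re, Complex.sub_im,
    Complex.mul_re, Complex.mul_im, Complex.conj_re, Complex.conj_im, Complex.one_re,
    Complex.one_im]
  ring

lemma norm_eq_of_one {z α : ℂ} (hz : ‖z‖ = 1) : ‖1 - conj α * z‖ = ‖z - α‖ := by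
  have := norm_sq_id z α
  rw [hz] at this
  have h2 : ‖1 - conj α * z‖ ^ 2 = ‖z - α‖ ^ 2 := by rw [this]; ring
  exact (pow_left_inj₀ (norm_nonneg _) (norm_nonneg _) two_ne_zero).1 h2

/-- the ratio for one outer zero -/
lemma ratio_le {z α : ℂ} (hz : 1 < ‖z‖) (hα : 1 < ‖α‖) (hne : ‖z‖ ≠ ‖α‖) :
    ‖1 - conj α * z‖ ≤ (‖z‖ * ‖α‖ - 1) / |‖z‖ - ‖α‖| * ‖z - α‖ := by
  have h1 := norm_sq_id z α
  have h2 : |‖z‖ - ‖α‖| ≤ ‖z - α‖ := abs_norm_sub_norm_le z α
  have h3 : 0 < |‖z‖ - ‖α‖| := abs_pos.2 (sub_ne_zero.2 hne)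
  have h4 : 0 < ‖z‖ * ‖α‖ - 1 := by nlinarith
  apply le_of_sq_le_sq' _ (by positivity)
  rw [h1, mul_pow, div_pow, sq_abs, div_mul_eq_mul_div, le_div_iff₀ (by positivity)]
  have h5 : (‖z‖ - ‖α‖) ^ 2 ≤ ‖z - α‖ ^ 2 := by
    rw [← sq_abs (‖z‖ - ‖α‖)]
    exact pow_le_pow_left₀ (abs_nonneg _) h2 2
  have h6 : 0 ≤ (‖z‖ ^ 2 - 1) * (‖α‖ ^ 2 - 1) := by
    apply mul_nonneg <;> nlinarith
  nlinarith [mul_le_mul_of_nonneg_left h5 h6]

end Pool.Agent.N772.SC
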