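import Pool.Agent.N772.SC.Scale
import Pool.Agent.N772.SC.Ext

/-!
# The exterior bound
-/

set_option autoImplicit false

open Polynomial ComplexConjugate

namespace Pool.Agent.N772.SC

lemma eval_reflect {B : ℂ[X]} {d : ℕ} (hd : B.natDegree ≤ d) {z : ℂ} (hz : z ≠ 0) :
    ‖(reflect d B).eval z⁻¹‖ * ‖z‖ ^ d = ‖B.eval z‖ := by
  letI : Invertible z := invertibleOfNonzero hz
  have h := eval₂_reflect_mul_pow (RingHom.id ℂ) z d B hd
  rw [invOf_eq_inv] at h
  have h2 : (reflect d B).eval z⁻¹ * z ^ d = B.eval z := h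
  rw [← h2, norm_mul, norm_pow]

/-- the comparison polynomial -/
noncomputable def cmp (c : ℂ) (s t : Multiset ℂ) : ℂ[X] :=
  C c * ((s.map fun a => (1 - C a * X : ℂ[X])).prod * (t.map fun a => (X - C (conj a) : ℂ[X])).prod)

lemma eval_mprod (m : Multiset ℂ[X]) (w : ℂ) :
    ‖(m.prod).eval w‖ = (m.map fun p => ‖p.eval w‖).prod := by
  induction m using Multiset.induction_on with
  | empty => simp
  | cons a m ih => simp [eval_mul, ih]

lemma cmp_norm (c : ℂ) (s t : Multiset ℂ) {z : ℂ} (hz : z ≠ 0) :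
    ‖(cmp c s t).eval z⁻¹‖ * ‖z‖ ^ (s.card + t.card) =
      ‖c‖ * ((s.map fun a => ‖z - a‖).prod * (t.map fun a => ‖1 - conj a * z‖).prod) := by
  have hs : ∀ s : Multiset ℂ, ((s.map fun a => (1 - C a * X : ℂ[X])).map fun p => ‖p.eval z⁻¹‖).prod *
      ‖z‖ ^ s.card = (s.map fun a => ‖z - a‖).prod := by
    intro s
    induction s using Multiset.induction_on with
    | empty => simp
    | cons a s ih =>
      simp only [Multiset.map_cons, Multiset.prod_cons, Multiset.card_cons, pow_succ]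
      rw [← ih]
      have h1 : ‖(1 - C a * X : ℂ[X]).eval z⁻¹‖ * ‖z‖ = ‖z - a‖ := by
        rw [← norm_mul]
        congr 1
        simp only [eval_sub, eval_one, eval_mul, eval_C, eval_X]
        field_simp
      rw [← h1]
      ring
  have ht : ∀ t : Multiset ℂ, ((t.map fun a => (X - C (conj a) : ℂ[X])).map fun p => ‖p.eval z⁻¹‖).prod *
      ‖z‖ ^ t.card = (t.map fun a => ‖1 - conj a * z‖).prod := by
    intro t
    induction t using Multiset.induction_on with
    | empty => simp
    | cons a t ih =>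
      simp only [Multiset.map_cons, Multiset.prod_cons, Multiset.card_cons, pow_succ]
      rw [← ih]
      have h1 : ‖(X - C (conj a) : ℂ[X]).eval z⁻¹‖ * ‖z‖ = ‖1 - conj a * z‖ := by
        rw [← norm_mul]
        congr 1
        simp only [eval_sub, eval_C, eval_X]
        field_simp
      rw [← h1]
      ring
  rw [cmp, eval_mul, eval_mul, eval_C, norm_mul, norm_mul, eval_mprod, eval_mprod, ← hs s, ← ht t,
    pow_add]
  ring

lemma norm_eval_eq (A : ℂ[X]) (z : ℂ) :
    ‖A.eval z‖ = ‖A.leadingCoeff‖ * (A.roots.map fun a => ‖z - a‖).prod := by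
  conv_lhs => rw [(IsAlgClosed.splits A).eq_prod_roots]
  rw [eval_mul, eval_C, norm_mul, eval_mprod, Multiset.map_map]
  congr 2
  apply Multiset.map_congr rfl
  intro a _
  simp

open Classical in
/-- the exterior bound -/
theorem ext_bound {A B : ℂ[X]} {N g : ℕ} {H : ℝ} (hA : A ≠ 0) (hH : 0 ≤ H)
    (hdeg : B.natDegree + g ≤ N + A.natDegree)
    (hB : ∀ z : ℂ, ‖z‖ = 1 → ‖B.eval z‖ ≤ H * ‖A.eval z‖) {x : ℝ} (hx : 1 < x)
    (hxa : ∀ a ∈ out A, x ≠ ‖a‖) {z : ℂ} (hz : ‖z‖ = x) :
    ‖B.eval z‖ * x ^ g ≤ H * x ^ N * ‖A.eval z‖ *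
      ((out A).map fun a => (x * ‖a‖ - 1) / |x - ‖a‖|).prod := by
  obtain ⟨s, hs⟩ : ∃ s, s = A.roots.filter fun a => ¬ 1 < ‖a‖ := ⟨_, rfl⟩
  obtain ⟨t, ht⟩ : ∃ t, t = out A := ⟨_, rfl⟩
  have hst : t + s = A.roots := by
    rw [hs, ht, out]
    exact Multiset.filter_add_not _ _
  have hcard : A.roots.card = A.natDegree := (splits_iff_card_roots.1 (IsAlgClosed.splits A))
  have hcard2 : s.card + t.card = A.natDegree := by
    rw [← hcard, ← hst, Multiset.card_add, add_comm]
  have htm : ∀ a ∈ t, 1 < ‖a‖ := by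
    intro a ha
    rw [ht, out] at ha
    exact (Multiset.mem_filter.1 ha).2
  have hsm : ∀ a ∈ s, ‖a‖ ≤ 1 := by
    intro a ha
    rw [hs] at ha
    exact not_lt.1 (Multiset.mem_filter.1 ha).2
  obtain ⟨d, hd⟩ : ∃ d, d + g = N + A.natDegree := ⟨N + A.natDegree - g, by omega⟩
  have hBd : B.natDegree ≤ d := by omega
  have hlc : A.leadingCoeff ≠ 0 := leadingCoeff_ne_zero.2 hA
  have hAz : ∀ z : ℂ, ‖A.eval z‖ = ‖A.leadingCoeff‖ * ((s.map fun a => ‖z - a‖).prod *
      (t.map fun a => ‖z - a‖).prod) := by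
    intro z
    rw [norm_eval_eq, ← hst, Multiset.map_add, Multiset.prod_add]
    ring
  have key := max_disc (cmp A.leadingCoeff s t).natDegree (reflect d B) (cmp A.leadingCoeff s t) H
    rfl hH (by
      intro w hw hw0
      rw [cmp, eval_mul, eval_mul, eval_C] at hw0
      rcases mul_eq_zero.1 hw0 with h | h
      · exact hlc h
      · rcases mul_eq_zero.1 h with h | h
        · rw [← norm_eq_zero, eval_mprod, Multiset.prod_eq_zero_iff, Multiset.map_map] at h
          obtain ⟨a, ha, ha0⟩ := Multiset.mem_map.1 h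
          simp only [Function.comp, eval_sub, eval_one, eval_mul, eval_C, eval_X,
            norm_eq_zero] at ha0
          have h1 : a * w = 1 := by linear_combination -ha0
          have h2 : ‖a‖ * ‖w‖ = 1 := by rw [← norm_mul, h1, norm_one]
          have h3 := hsm a ha
          nlinarith [norm_nonneg a, norm_nonneg w]
        · rw [← norm_eq_zero, eval_mprod, Multiset.prod_eq_zero_iff, Multiset.map_map] at h
          obtain ⟨a, ha, ha0⟩ := Multiset.mem_map.1 h
          simp only [Function.comp, eval_sub, eval_C, eval_X, norm_eq_zero] at ha0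
          have h1 : w = conj a := by linear_combination ha0
          have h3 := htm a ha
          rw [h1, RCLike.norm_conj] at hw
          linarith) (by
      intro w hw
      have hw0 : w ≠ 0 := by
        rintro rfl
        simp at hw
      have hz1 : ‖w⁻¹‖ = 1 := by rw [norm_inv, hw, inv_one]
      have hz0 : w⁻¹ ≠ 0 := inv_ne_zero hw0
      have e1 := eval_reflect hBd hz0
      have e2 := cmp_norm A.leadingCoeff s t hz0
      rw [inv_inv, hz1, one_pow, mul_one] at e1 e2
      have e3 : (t.map fun a => ‖1 - conj a * w⁻¹‖).prod = (t.map fun a => ‖w⁻¹ - a‖).prod := by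
        congr 1
        apply Multiset.map_congr rfl
        intro a _
        exact norm_eq_of_one hz1
      rw [e1, e2, e3, ← hAz]
      exact hB _ hz1)
  have hx0 : (0:ℝ) < x := by linarith
  have hz0 : z ≠ 0 := by
    rw [← norm_ne_zero_iff, hz]
    exact hx0.ne'
  have hw : ‖z⁻¹‖ ≤ 1 := by
    rw [norm_inv, hz]
    exact inv_le_one_of_one_le₀ hx.le
  have h1 := key z⁻¹ hw
  have e1 := eval_reflect hBd hz0
  have e2 := cmp_norm A.leadingCoeff s t hz0
  rw [hz] at e1 e2
  rw [hcard2] at e2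
  have h2 : ‖B.eval z‖ * x ^ A.natDegree ≤ H * x ^ d * (‖A.leadingCoeff‖ *
      ((s.map fun a => ‖z - a‖).prod * (t.map fun a => ‖1 - conj a * z‖).prod)) := by
    rw [← e1, ← e2]
    have hp : (0:ℝ) ≤ x ^ d * x ^ A.natDegree := by positivity
    calc ‖(reflect d B).eval z⁻¹‖ * x ^ d * x ^ A.natDegree
        = ‖(reflect d B).eval z⁻¹‖ * (x ^ d * x ^ A.natDegree) := by ring
      _ ≤ (H * ‖(cmp A.leadingCoeff s t).eval z⁻¹‖) * (x ^ d * x ^ A.natDegree) :=
          mul_le_mul_of_nonneg_right h1 hp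
      _ = _ := by ring
  have h3 : ∀ t : Multiset ℂ, (∀ a ∈ t, 1 < ‖a‖) → (∀ a ∈ t, x ≠ ‖a‖) →
      (t.map fun a => ‖1 - conj a * z‖).prod ≤
        (t.map fun a => ‖z - a‖).prod * (t.map fun a => (x * ‖a‖ - 1) / |x - ‖a‖|).prod := by
    intro t
    induction t using Multiset.induction_on with
    | empty => simp
    | cons a t ih =>
      intro ht1 ht2
      rw [Multiset.map_cons, Multiset.prod_cons, Multiset.map_cons, Multiset.prod_cons,
        Multiset.map_cons, Multiset.prod_cons]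
      have h4 := ih (fun b hb => ht1 b (Multiset.mem_cons_of_mem hb))
        (fun b hb => ht2 b (Multiset.mem_cons_of_mem hb))
      have h5 := ratio_le (z := z) (α := a) (by rw [hz]; exact hx)
        (ht1 a (Multiset.mem_cons_self a t)) (by rw [hz]; exact ht2 a (Multiset.mem_cons_self a t))
      rw [hz] at h5
      have h6 : 0 ≤ (t.map fun a => ‖1 - conj a * z‖).prod := by
        apply Multiset.prod_nonneg
        intro y hy
        obtain ⟨b, -, rfl⟩ := Multiset.mem_map.1 hy
        exact norm_nonneg _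
      calc ‖1 - conj a * z‖ * (t.map fun a => ‖1 - conj a * z‖).prod
          ≤ ((x * ‖a‖ - 1) / |x - ‖a‖| * ‖z - a‖) * ((t.map fun a => ‖z - a‖).prod *
            (t.map fun a => (x * ‖a‖ - 1) / |x - ‖a‖|).prod) :=
            mul_le_mul h5 h4 h6 ((norm_nonneg _).trans h5)
        _ = _ := by ring
  have h4 := h3 t htm (by rw [ht]; exact hxa)
  have h5 : 0 ≤ (s.map fun a => ‖z - a‖).prod := by
    apply Multiset.prod_nonneg
    intro y hy
    obtain ⟨b, -, rfl⟩ := Multiset.mem_map.1 hy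
    exact norm_nonneg _
  rw [← ht]
  have h6 : ‖B.eval z‖ * x ^ A.natDegree ≤ H * x ^ d * ‖A.eval z‖ *
      (t.map fun a => (x * ‖a‖ - 1) / |x - ‖a‖|).prod := by
    rw [hAz]
    calc _ ≤ _ := h2
      _ ≤ H * x ^ d * (‖A.leadingCoeff‖ * ((s.map fun a => ‖z - a‖).prod *
          ((t.map fun a => ‖z - a‖).prod *
            (t.map fun a => (x * ‖a‖ - 1) / |x - ‖a‖|).prod))) := by
          apply mul_le_mul_of_nonneg_left _ (by positivity)
          apply mul_le_mul_of_nonneg_left _ (norm_nonneg _)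
          exact mul_le_mul_of_nonneg_left h4 h5
      _ = _ := by ring
  have h7 : x ^ d * x ^ g = x ^ N * x ^ A.natDegree := by rw [← pow_add, ← pow_add, hd]
  have h8 : 0 < x ^ A.natDegree := by positivity
  have h9 : x ^ A.natDegree * (‖B.eval z‖ * x ^ g) ≤ x ^ A.natDegree * (H * x ^ N * ‖A.eval z‖ *
      (t.map fun a => (x * ‖a‖ - 1) / |x - ‖a‖|).prod) := by
    calc x ^ A.natDegree * (‖B.eval z‖ * x ^ g) = (‖B.eval z‖ * x ^ A.natDegree) * x ^ g := by ring
      _ ≤ (H * x ^ d * ‖A.eval z‖ *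
          (t.map fun a => (x * ‖a‖ - 1) / |x - ‖a‖|).prod) * x ^ g :=
          mul_le_mul_of_nonneg_right h6 (by positivity)
      _ = H * (x ^ d * x ^ g) * ‖A.eval z‖ *
          (t.map fun a => (x * ‖a‖ - 1) / |x - ‖a‖|).prod := by ring
      _ = _ := by rw [h7]; ring
  exact le_of_mul_le_mul_left h9 h8

end Pool.Agent.N772.SC
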